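import Pool.Agent.Y440.A.Stm

/-!
# Transpositions acting on codes
-/

set_option autoImplicit false

open Pool.Agent.Y440.A

namespace Pool.Agent.Y37.Q440

lemma dig (b0 b1 b2 b3 b4 b5 b6 b7 b8 b9 : ℕ) (h0 : b0 ≤ 1) (h1 : b1 ≤ 1) (h2 : b2 ≤ 1)
    (h3 : b3 ≤ 1) (h4 : b4 ≤ 1) (h5 : b5 ≤ 1) (h6 : b6 ≤ 1) (h7 : b7 ≤ 1) (h8 : b8 ≤ 1)
    (h9 : b9 ≤ 1) :
    b10 b0 b1 b2 b3 b4 b5 b6 b7 b8 b9 < 1024 ∧
    bt 0 (b10 b0 b1 b2 b3 b4 b5 b6 b7 b8 b9) = b0 ∧ bt 1 (b10 b0 b1 b2 b3 b4 b5 b6 b7 b8 b9) = b1 ∧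
    bt 2 (b10 b0 b1 b2 b3 b4 b5 b6 b7 b8 b9) = b2 ∧ bt 3 (b10 b0 b1 b2 b3 b4 b5 b6 b7 b8 b9) = b3 ∧
    bt 4 (b10 b0 b1 b2 b3 b4 b5 b6 b7 b8 b9) = b4 ∧ bt 5 (b10 b0 b1 b2 b3 b4 b5 b6 b7 b8 b9) = b5 ∧
    bt 6 (b10 b0 b1 b2 b3 b4 b5 b6 b7 b8 b9) = b6 ∧ bt 7 (b10 b0 b1 b2 b3 b4 b5 b6 b7 b8 b9) = b7 ∧
    bt 8 (b10 b0 b1 b2 b3 b4 b5 b6 b7 b8 b9) = b8 ∧ bt 9 (b10 b0 b1 b2 b3 b4 b5 b6 b7 b8 b9) = b9 := by
  unfold bt b10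
  refine ⟨?_, ?_, ?_, ?_, ?_, ?_, ?_, ?_, ?_, ?_, ?_⟩
  all_goals norm_num only
  all_goals omega

theorem t : S_codes := by
  intro V E h a b c d e f
  have hE : ∀ a b c d, E a b c d ≤ 1 := by
    intro a b c d
    rcases h.bt a b c d with h1 | h1 <;> omega
  have hO : ∀ a b c d e, E b c d e = (1 + E a b c d + E a b c e + E a b d e + E a c d e) % 2 := by
    intro a b c d e
    have h1 := h.odd a b c d e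
    have h2 := hE b c d e
    omega
  obtain ⟨cl, c0, c1, c2, c3, c4, c5, c6, c7, c8, c9⟩ := dig (E a b c d) (E a b c e) (E a b d e)
    (E a c d e) (E a b c f) (E a b d f) (E a c d f) (E a b e f) (E a c e f) (E a d e f)
    (hE _ _ _ _) (hE _ _ _ _) (hE _ _ _ _) (hE _ _ _ _) (hE _ _ _ _) (hE _ _ _ _) (hE _ _ _ _)
    (hE _ _ _ _) (hE _ _ _ _) (hE _ _ _ _)
  have hf := fun u => dig (E a b c u) (E a b d u) (E a c d u) (E a b e u) (E a c e u) (E a d e u)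
    (E a b f u) (E a c f u) (E a d f u) (E a e f u)
    (hE _ _ _ _) (hE _ _ _ _) (hE _ _ _ _) (hE _ _ _ _) (hE _ _ _ _) (hE _ _ _ _) (hE _ _ _ _)
    (hE _ _ _ _) (hE _ _ _ _) (hE _ _ _ _)
  refine ⟨cl, fun u => (hf u).1, ?_, fun u => ?_, ?_, fun u => ?_, ?_, fun u => ?_, ?_,
    fun u => ?_, ?_, fun u => ?_⟩
  · unfold cd C0
    rw [c0, c1, c2, c3, c4, c5, c6, c7, c8, c9, ← hO a b c d e, ← hO a b c d f, ← hO a b c e f,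
      ← hO a b d e f, h.s0 a b, h.s0 a b, h.s0 a b, h.s0 a b, h.s0 a b, h.s0 a b]
  · obtain ⟨_, f0, f1, f2, f3, f4, f5, f6, f7, f8, f9⟩ := hf u
    unfold cd fl F0
    rw [c0, c1, c2, c4, c5, c7, f0, f1, f2, f3, f4, f5, f6, f7, f8, f9, ← hO a b c d u,
      ← hO a b c e u, ← hO a b d e u, ← hO a b c f u, ← hO a b d f u, ← hO a b e f u,
      h.s0 a b, h.s0 a b, h.s0 a b, h.s0 a b]
  · unfold cd C1
    rw [c0, c1, c2, c3, c4, c5, c6, c7, c8, c9, h.s1 a b c d, h.s1 a b c e, h.s1 a b c f]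
  · obtain ⟨_, f0, f1, f2, f3, f4, f5, f6, f7, f8, f9⟩ := hf u
    unfold fl F1
    rw [f0, f1, f2, f3, f4, f5, f6, f7, f8, f9, h.s1 a b c u]
  · unfold cd C2
    rw [c0, c1, c2, c3, c4, c5, c6, c7, c8, c9, h.s2 a b c d, h.s1 a c d e, h.s1 a c d f]
  · obtain ⟨_, f0, f1, f2, f3, f4, f5, f6, f7, f8, f9⟩ := hf u
    unfold fl F2
    rw [f0, f1, f2, f3, f4, f5, f6, f7, f8, f9, h.s1 a c d u]
  · unfold cd C3
    rw [c0, c1, c2, c3, c4, c5, c6, c7, c8, c9, h.s2 a b d e, h.s2 a c d e, h.s1 a d e f]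
  · obtain ⟨_, f0, f1, f2, f3, f4, f5, f6, f7, f8, f9⟩ := hf u
    unfold fl F3
    rw [f0, f1, f2, f3, f4, f5, f6, f7, f8, f9, h.s1 a d e u]
  · unfold cd C4
    rw [c0, c1, c2, c3, c4, c5, c6, c7, c8, c9, h.s2 a b e f, h.s2 a c e f, h.s2 a d e f]
  · obtain ⟨_, f0, f1, f2, f3, f4, f5, f6, f7, f8, f9⟩ := hf u
    unfold fl F4
    rw [f0, f1, f2, f3, f4, f5, f6, f7, f8, f9, h.s1 a e f u]

end Pool.Agent.Y37.Q440
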